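import Pool.Agent.Lib.MP_6bc78b_nt.MS.P2.Iface
import Pool.Agent.Lib.MP_6bc78b_nt.SW.Iface

/-! Module RGB of ms2_modules: `1`, `log` and `Λ` cancel in character sums to small conductors. -/

set_option autoImplicit false

open Filter Topology ArithmeticFunction

namespace Pool.Agent.Lib.MP_6bc78b_nt.MS.P2

namespace RGB

theorem dv_pos {n : ℕ} (hn : n ≠ 0) : 1 ≤ dv n := by
  unfold dv
  have : 0 < n.divisors.card := Finset.card_pos.2 ⟨1, by simp [hn]⟩
  exact_mod_cast this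

theorem one_apply {n : ℕ} : one n = if n = 0 then 0 else 1 := by
  unfold one
  rw [ArithmeticFunction.natCoe_apply, ArithmeticFunction.zeta_apply]
  split_ifs <;> simp

theorem lg_apply {n : ℕ} : lg n = Real.log n := by
  unfold lg
  exact ArithmeticFunction.log_apply

theorem sum_moebius (g : ℕ) :
    ∑ f ∈ g.divisors, ((ArithmeticFunction.moebius f : ℤ) : ℂ) = if g = 1 then 1 else 0 := by
  have h1 : ((ArithmeticFunction.moebius * (ArithmeticFunction.zeta : ArithmeticFunction ℤ)) g) =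
      ∑ f ∈ g.divisors, ArithmeticFunction.moebius f :=
    ArithmeticFunction.coe_mul_zeta_apply
  rw [ArithmeticFunction.moebius_mul_coe_zeta, ArithmeticFunction.one_apply] at h1
  have h2 : ((∑ f ∈ g.divisors, ArithmeticFunction.moebius f : ℤ) : ℂ) =
      ∑ f ∈ g.divisors, ((ArithmeticFunction.moebius f : ℤ) : ℂ) := by push_cast; rfl
  rw [← h2, ← h1]
  split_ifs <;> simp

theorem sum_dvd {q : ℕ} (ψ : DirichletCharacter ℂ q) (N f : ℕ) (hf : 1 ≤ f) :
    ∑ r ∈ (Finset.Icc 1 N).filter (fun r => f ∣ r), ψ (r : ZMod q) =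
      ψ (f : ZMod q) * ∑ r ∈ Finset.Icc 1 (N / f), ψ (r : ZMod q) := by
  rw [Finset.mul_sum]
  refine Finset.sum_nbij' (fun r => r / f) (fun r => f * r) ?_ ?_ ?_ ?_ ?_
  · intro r hr
    simp only [Finset.mem_filter, Finset.mem_Icc] at hr ⊢
    obtain ⟨⟨h1, h2⟩, k, rfl⟩ := hr
    rw [Nat.mul_div_cancel_left _ hf]
    constructor
    · rcases Nat.eq_zero_or_pos k with h | h
      · subst h; simp at h1
      · exact h
    · rw [Nat.le_div_iff_mul_le hf, mul_comm]; exact h2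
  · intro r hr
    simp only [Finset.mem_filter, Finset.mem_Icc] at hr ⊢
    obtain ⟨h1, h2⟩ := hr
    refine ⟨⟨Nat.mul_pos hf h1, ?_⟩, ⟨r, rfl⟩⟩
    rw [Nat.le_div_iff_mul_le hf, mul_comm] at h2; exact h2
  · intro r hr
    simp only [Finset.mem_filter, Finset.mem_Icc] at hr
    obtain ⟨⟨h1, h2⟩, k, rfl⟩ := hr
    rw [Nat.mul_div_cancel_left _ hf]
  · intro r _
    rw [Nat.mul_div_cancel_left _ hf]
  · intro r hr
    simp only [Finset.mem_filter, Finset.mem_Icc] at hr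
    obtain ⟨⟨h1, h2⟩, k, rfl⟩ := hr
    rw [Nat.mul_div_cancel_left _ hf, ← map_mul]
    push_cast
    rfl

theorem cop_sum {q : ℕ} (ψ : DirichletCharacter ℂ q) (N e : ℕ) (he : 1 ≤ e) :
    ∑ r ∈ (Finset.Icc 1 N).filter (fun r => Nat.Coprime r e), ψ (r : ZMod q) =
      ∑ f ∈ e.divisors, ((ArithmeticFunction.moebius f : ℤ) : ℂ) *
        (ψ (f : ZMod q) * ∑ r ∈ Finset.Icc 1 (N / f), ψ (r : ZMod q)) := by
  have h1 : ∑ r ∈ (Finset.Icc 1 N).filter (fun r => Nat.Coprime r e), ψ (r : ZMod q) =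
      ∑ r ∈ Finset.Icc 1 N, ∑ f ∈ e.divisors,
        if f ∣ r then ((ArithmeticFunction.moebius f : ℤ) : ℂ) * ψ (r : ZMod q) else 0 := by
    rw [Finset.sum_filter]
    refine Finset.sum_congr rfl fun r hr => ?_
    rw [Finset.mem_Icc] at hr
    have hg0 : Nat.gcd r e ≠ 0 := by
      have := Nat.gcd_pos_of_pos_right r he
      omega
    have h2 := sum_moebius (Nat.gcd r e)
    have h3 : (Nat.gcd r e).divisors = e.divisors.filter (fun f => f ∣ r) := by
      ext f
      simp only [Nat.mem_divisors, Finset.mem_filter]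
      constructor
      · rintro ⟨h, _⟩
        exact ⟨⟨h.trans (Nat.gcd_dvd_right r e), by omega⟩, h.trans (Nat.gcd_dvd_left r e)⟩
      · rintro ⟨⟨h, _⟩, h'⟩
        exact ⟨Nat.dvd_gcd h' h, hg0⟩
    rw [← Finset.sum_filter, ← h3, ← Finset.sum_mul, h2]
    by_cases hc : Nat.Coprime r e
    · rw [if_pos hc, if_pos hc, one_mul]
    · rw [if_neg hc, if_neg hc, zero_mul]
  rw [h1, Finset.sum_comm]
  refine Finset.sum_congr rfl fun f hf => ?_
  rw [Nat.mem_divisors] at hf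
  have hf1 : 1 ≤ f := Nat.pos_of_dvd_of_pos hf.1 he
  rw [← sum_dvd ψ N f hf1, Finset.mul_sum, Finset.sum_filter]

/-- partial sums of a character over `r` coprime to `e` -/
theorem norm_cop_sum (h : SW.ChbStatement) {q : ℕ} (hq : 2 ≤ q) (ψ : DirichletCharacter ℂ q)
    (hψ : ψ ≠ 1) (N e : ℕ) (he : 1 ≤ e) :
    ‖∑ r ∈ (Finset.Icc 1 N).filter (fun r => Nat.Coprime r e), ψ (r : ZMod q)‖ ≤ dv e * q := by
  rw [cop_sum ψ N e he]
  refine (norm_sum_le _ _).trans ?_
  have h1 : ∀ f ∈ e.divisors, ‖((ArithmeticFunction.moebius f : ℤ) : ℂ) *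
        (ψ (f : ZMod q) * ∑ r ∈ Finset.Icc 1 (N / f), ψ (r : ZMod q))‖ ≤ (q : ℝ) := by
    intro f _
    rw [norm_mul, norm_mul]
    have h2 : ‖((ArithmeticFunction.moebius f : ℤ) : ℂ)‖ ≤ 1 := by
      rw [Complex.norm_intCast]
      exact_mod_cast ArithmeticFunction.abs_moebius_le_one
    have h3 : ‖ψ (f : ZMod q)‖ ≤ 1 := ψ.norm_le_one _
    have h4 := h.1 q (by omega) ψ hψ (N / f)
    calc _ ≤ 1 * (1 * (q : ℝ)) := by gcongr
      _ = q := by ring
  refine (Finset.sum_le_card_nsmul _ _ _ h1).trans ?_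
  unfold dv
  rw [nsmul_eq_mul]

/-- partial summation against a monotone function -/
theorem abel (a : ℕ → ℂ) (g : ℕ → ℝ) (hg : ∀ n, 1 ≤ n → g n ≤ g (n + 1)) (A : ℝ)
    (hA : ∀ N, ‖∑ r ∈ Finset.Icc 1 N, a r‖ ≤ A) (N : ℕ) (hN : 1 ≤ N) :
    ‖∑ r ∈ Finset.Icc 1 N, a r * (g r : ℂ) - (∑ r ∈ Finset.Icc 1 N, a r) * (g N : ℂ)‖ ≤
      A * (g N - g 1) := by
  induction N, hN using Nat.le_induction with
  | base => simp
  | succ N hN ih =>
    rw [Finset.sum_Icc_succ_top (by omega), Finset.sum_Icc_succ_top (by omega)]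
    have h1 : ∑ r ∈ Finset.Icc 1 N, a r * (g r : ℂ) + a (N + 1) * (g (N + 1) : ℂ) -
        (∑ r ∈ Finset.Icc 1 N, a r + a (N + 1)) * (g (N + 1) : ℂ) =
        (∑ r ∈ Finset.Icc 1 N, a r * (g r : ℂ) - (∑ r ∈ Finset.Icc 1 N, a r) * (g N : ℂ)) -
        (∑ r ∈ Finset.Icc 1 N, a r) * ((g (N + 1) - g N : ℝ) : ℂ) := by
      push_cast; ring
    rw [h1]
    refine (norm_sub_le _ _).trans ?_
    rw [norm_mul, Complex.norm_real, Real.norm_eq_abs, abs_of_nonneg (by linarith [hg N hN])]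
    have h2 := mul_le_mul_of_nonneg_right (hA N) (by linarith [hg N hN] : 0 ≤ g (N + 1) - g N)
    linarith

theorem tb_one : Tb one := by
  refine ⟨1, fun n => ?_⟩
  rw [one_apply]
  by_cases hn : n = 0
  · subst hn; simp [dv]
  · rw [if_neg hn]
    have h1 := dv_pos hn
    have h2 : 0 ≤ Real.log n := Real.log_natCast_nonneg n
    simp only [abs_one, Nat.cast_one, one_mul, pow_one]
    nlinarith

theorem tb_lg : Tb lg := by
  refine ⟨1, fun n => ?_⟩
  rw [lg_apply]
  by_cases hn : n = 0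
  · subst hn; simp [dv]
  · have h1 := dv_pos hn
    have h2 : 0 ≤ Real.log n := Real.log_natCast_nonneg n
    rw [abs_of_nonneg h2]
    simp only [Nat.cast_one, one_mul, pow_one]
    nlinarith

theorem tb_La : Tb La := by
  refine ⟨1, fun n => ?_⟩
  by_cases hn : n = 0
  · subst hn; simp [dv]
  · have h1 := dv_pos hn
    have h2 : 0 ≤ Real.log n := Real.log_natCast_nonneg n
    have h3 : La n ≤ Real.log n := ArithmeticFunction.vonMangoldt_le_log
    have h4 : 0 ≤ La n := ArithmeticFunction.vonMangoldt_nonneg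
    rw [abs_of_nonneg h4]
    simp only [Nat.cast_one, one_mul, pow_one]
    nlinarith

/-- powers of the logarithm are small -/
theorem ev_log (c : ℝ) (n : ℕ) : ∀ᶠ x : ℝ in atTop, c * Real.log x ^ n ≤ x := by
  have h := (Real.isLittleO_pow_log_id_atTop (n := n)).bound
    (c := 1 / (|c| + 1)) (by positivity)
  filter_upwards [h, eventually_ge_atTop (1 : ℝ)] with x hx h1
  have h0 : 0 ≤ Real.log x := Real.log_nonneg h1
  rw [Real.norm_of_nonneg (pow_nonneg h0 n), id, Real.norm_of_nonneg (by linarith)] at hx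
  have hc : 0 < |c| + 1 := by positivity
  have h2 : (|c| + 1) * Real.log x ^ n ≤ x := by
    calc (|c| + 1) * Real.log x ^ n ≤ (|c| + 1) * (1 / (|c| + 1) * x) := by gcongr
      _ = x := by field_simp
  have h3 : c * Real.log x ^ n ≤ (|c| + 1) * Real.log x ^ n := by
    gcongr
    linarith [le_abs_self c]
  linarith

theorem reg_one (h : SW.ChbStatement) : Reg one := by
  refine ⟨1, fun A B H => ?_⟩
  filter_upwards [ev_log 1 (A + B), eventually_ge_atTop (Real.exp 1)] with x hx hx1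
  intro q hq hqA ψ hψ d e hd he hdx hex
  have hl : 1 ≤ Real.log x := by
    rw [Real.le_log_iff_exp_le (lt_of_lt_of_le (Real.exp_pos 1) hx1)]
    exact hx1
  have hd0 : d ≠ 0 := hd.ne_zero
  have h1 : ∑ r ∈ (Finset.Icc 1 ⌊x⌋₊).filter (fun r => Nat.Coprime r e),
      ((one (d * r) : ℝ) : ℂ) * ψ (r : ZMod q) =
      ∑ r ∈ (Finset.Icc 1 ⌊x⌋₊).filter (fun r => Nat.Coprime r e), ψ (r : ZMod q) := by
    refine Finset.sum_congr rfl fun r hr => ?_
    rw [Finset.mem_filter, Finset.mem_Icc] at hr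
    rw [one_apply, if_neg (Nat.mul_ne_zero hd0 (by omega))]
    simp
  rw [h1]
  refine (norm_cop_sum h hq ψ hψ _ e he).trans ?_
  have h2 := dv_pos hd0
  have h3 : 1 ≤ dv e := dv_pos (by omega)
  rw [pow_one, pow_one, le_div_iff₀ (by positivity)]
  calc dv e * q * Real.log x ^ B ≤ dv e * Real.log x ^ A * Real.log x ^ B := by gcongr
    _ = dv e * (1 * Real.log x ^ (A + B)) := by rw [pow_add]; ring
    _ ≤ dv e * x := by gcongr
    _ = x * 1 * dv e := by ring
    _ ≤ x * dv d * dv e := by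
      have : 0 ≤ x := le_trans (Real.exp_pos 1).le hx1
      gcongr

theorem reg_lg (h : SW.ChbStatement) : Reg lg := by
  refine ⟨1, fun A B H => ?_⟩
  filter_upwards [ev_log (H + 2) (A + B + 1), eventually_ge_atTop (Real.exp 1)] with x hx hx1
  intro q hq hqA ψ hψ d e hd he hdx hex
  have hxpos : 0 < x := lt_of_lt_of_le (Real.exp_pos 1) hx1
  have hl : 1 ≤ Real.log x := by
    rw [Real.le_log_iff_exp_le hxpos]
    exact hx1
  have hx1' : 1 ≤ x := by
    have := Real.add_one_le_exp (1 : ℝ)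
    linarith
  have hd0 : d ≠ 0 := hd.ne_zero
  have hN : 1 ≤ ⌊x⌋₊ := by
    rw [Nat.one_le_floor_iff]; exact hx1'
  set a : ℕ → ℂ := fun r => if Nat.Coprime r e then ψ (r : ZMod q) else 0 with ha
  have hA : ∀ N, ‖∑ r ∈ Finset.Icc 1 N, a r‖ ≤ dv e * q := by
    intro N
    rw [ha, ← Finset.sum_filter]
    exact norm_cop_sum h hq ψ hψ N e he
  have h1 : ∑ r ∈ (Finset.Icc 1 ⌊x⌋₊).filter (fun r => Nat.Coprime r e),
      ((lg (d * r) : ℝ) : ℂ) * ψ (r : ZMod q) =
      (Real.log d : ℂ) * ∑ r ∈ Finset.Icc 1 ⌊x⌋₊, a r +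
      ∑ r ∈ Finset.Icc 1 ⌊x⌋₊, a r * (Real.log r : ℂ) := by
    rw [Finset.sum_filter, Finset.mul_sum, ← Finset.sum_add_distrib]
    refine Finset.sum_congr rfl fun r hr => ?_
    rw [Finset.mem_Icc] at hr
    rw [lg_apply]
    by_cases hc : Nat.Coprime r e
    · rw [ha]
      simp only [if_pos hc]
      push_cast
      rw [Real.log_mul (by exact_mod_cast hd0) (by exact_mod_cast (by omega : r ≠ 0))]
      push_cast
      ring
    · rw [ha]
      simp only [if_neg hc]
      ring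
  rw [h1]
  have hdl : Real.log d ≤ H * Real.log x := by
    rw [← Real.log_pow]
    exact Real.log_le_log (by exact_mod_cast Nat.pos_of_ne_zero hd0) hdx
  have hdl0 : 0 ≤ Real.log d := Real.log_natCast_nonneg d
  have hab := abel a (fun r => Real.log r) (fun n hn => by
    apply Real.log_le_log (by exact_mod_cast hn)
    push_cast; linarith) (dv e * q) hA ⌊x⌋₊ hN
  simp only [Nat.cast_one, Real.log_one, sub_zero] at hab
  have hNl : Real.log ⌊x⌋₊ ≤ Real.log x :=
    Real.log_le_log (by exact_mod_cast hN) (Nat.floor_le hxpos.le)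
  have hNl0 : 0 ≤ Real.log ⌊x⌋₊ := Real.log_natCast_nonneg _
  have h2 := dv_pos hd0
  have h3 : 1 ≤ dv e := dv_pos (by omega)
  have h4 : ‖∑ r ∈ Finset.Icc 1 ⌊x⌋₊, a r * (Real.log r : ℂ)‖ ≤
      2 * (dv e * q * Real.log x) := by
    have h5 : ‖(∑ r ∈ Finset.Icc 1 ⌊x⌋₊, a r) * (Real.log ⌊x⌋₊ : ℂ)‖ ≤
        dv e * q * Real.log x := by
      rw [norm_mul, Complex.norm_real, Real.norm_of_nonneg hNl0]
      exact mul_le_mul (hA _) hNl hNl0 (by positivity)
    have h6 : dv e * q * Real.log ⌊x⌋₊ ≤ dv e * q * Real.log x := by gcongr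
    calc ‖∑ r ∈ Finset.Icc 1 ⌊x⌋₊, a r * (Real.log r : ℂ)‖ =
        ‖(∑ r ∈ Finset.Icc 1 ⌊x⌋₊, a r * (Real.log r : ℂ) -
          (∑ r ∈ Finset.Icc 1 ⌊x⌋₊, a r) * (Real.log ⌊x⌋₊ : ℂ)) +
          (∑ r ∈ Finset.Icc 1 ⌊x⌋₊, a r) * (Real.log ⌊x⌋₊ : ℂ)‖ := by
            rw [sub_add_cancel]
      _ ≤ _ := norm_add_le _ _
      _ ≤ 2 * (dv e * q * Real.log x) := by linarith
  have h7 : ‖(Real.log d : ℂ) * ∑ r ∈ Finset.Icc 1 ⌊x⌋₊, a r‖ ≤
      H * Real.log x * (dv e * q) := by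
    rw [norm_mul, Complex.norm_real, Real.norm_of_nonneg hdl0]
    exact mul_le_mul hdl (hA _) (norm_nonneg _) (by positivity)
  refine (norm_add_le _ _).trans ?_
  refine (add_le_add h7 h4).trans ?_
  rw [pow_one, pow_one, le_div_iff₀ (by positivity)]
  calc (H * Real.log x * (dv e * q) + 2 * (dv e * q * Real.log x)) * Real.log x ^ B
      = (H + 2) * (dv e * q * Real.log x * Real.log x ^ B) := by ring
    _ ≤ (H + 2) * (dv e * Real.log x ^ A * Real.log x * Real.log x ^ B) := by gcongr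
    _ = dv e * ((H + 2) * Real.log x ^ (A + B + 1)) := by
      rw [pow_add, pow_add, pow_one]; ring
    _ ≤ dv e * x := by gcongr
    _ = x * 1 * dv e := by ring
    _ ≤ x * dv d * dv e := by gcongr

/-- `Λ` over the multiples of a prime -/
theorem sum_La_dvd (p : ℕ) (hp : p.Prime) (M : ℕ) (hM : 1 ≤ M) :
    ∑ s ∈ (Finset.Icc 1 M).filter (fun s => p ∣ s), La s ≤ Real.log M := by
  have h1 : ∑ s ∈ (Finset.Icc 1 M).filter (fun s => p ∣ s), La s ≤
      ∑ s ∈ (p ^ Nat.log p M).divisors, La s := by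
    rw [← Finset.sum_filter_ne_zero]
    refine Finset.sum_le_sum_of_subset_of_nonneg ?_ fun i _ _ =>
      ArithmeticFunction.vonMangoldt_nonneg
    intro s hs
    simp only [Finset.mem_filter, Finset.mem_Icc] at hs
    obtain ⟨⟨⟨hs1, hs2⟩, hps⟩, hne⟩ := hs
    have hpp : IsPrimePow s := ArithmeticFunction.vonMangoldt_ne_zero_iff.1 hne
    obtain ⟨l, k, hl, hk, rfl⟩ := (isPrimePow_nat_iff _).1 hpp
    have hpl : p = l := (Nat.prime_dvd_prime_iff_eq hp hl).1 (hp.dvd_of_dvd_pow hps)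
    subst hpl
    rw [Nat.mem_divisors]
    refine ⟨pow_dvd_pow _ ?_, pow_ne_zero _ hp.ne_zero⟩
    exact (Nat.le_log_iff_pow_le hp.one_lt (by omega)).2 hs2
  refine h1.trans ?_
  have h2 : ∑ s ∈ (p ^ Nat.log p M).divisors, La s = Real.log ((p ^ Nat.log p M : ℕ) : ℝ) :=
    ArithmeticFunction.vonMangoldt_sum
  rw [h2]
  apply Real.log_le_log
  · exact_mod_cast pow_pos hp.pos _
  · exact_mod_cast Nat.pow_log_le_self p (by omega)

theorem sum_La_not_coprime (e M : ℕ) (he : 1 ≤ e) (hM : 1 ≤ M) :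
    ∑ s ∈ (Finset.Icc 1 M).filter (fun s => ¬ Nat.Coprime s e), La s ≤ dv e * Real.log M := by
  have h1 : ∑ s ∈ (Finset.Icc 1 M).filter (fun s => ¬ Nat.Coprime s e), La s ≤
      ∑ s ∈ Finset.Icc 1 M, ∑ p ∈ e.primeFactors, if p ∣ s then La s else 0 := by
    rw [Finset.sum_filter]
    refine Finset.sum_le_sum fun s _ => ?_
    have h0 : 0 ≤ La s := ArithmeticFunction.vonMangoldt_nonneg
    by_cases hc : Nat.Coprime s e
    · rw [if_neg (not_not.2 hc)]
      exact Finset.sum_nonneg fun p _ => by split_ifs <;> [exact h0; exact le_rfl]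
    · rw [if_pos hc]
      obtain ⟨p, hp, hps, hpe⟩ := Nat.Prime.not_coprime_iff_dvd.1 hc
      have h2 : (if p ∣ s then La s else 0) ≤
          ∑ p ∈ e.primeFactors, if p ∣ s then La s else 0 :=
        Finset.single_le_sum (f := fun p => if p ∣ s then La s else 0)
          (fun p _ => by split_ifs <;> [exact h0; exact le_rfl])
          (Nat.mem_primeFactors.2 ⟨hp, hpe, by omega⟩)
      rwa [if_pos hps] at h2
  refine h1.trans ?_
  rw [Finset.sum_comm]
  have h2 : ∀ p ∈ e.primeFactors, (∑ s ∈ Finset.Icc 1 M, if p ∣ s then La s else 0) ≤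
      Real.log M := by
    intro p hp
    rw [← Finset.sum_filter]
    exact sum_La_dvd p (Nat.prime_of_mem_primeFactors hp) M hM
  refine (Finset.sum_le_card_nsmul _ _ _ h2).trans ?_
  rw [nsmul_eq_mul]
  have h3 : e.primeFactors.card ≤ e.divisors.card := Finset.card_le_card fun p hp => by
    rw [Nat.mem_primeFactors] at hp
    exact Nat.mem_divisors.2 ⟨hp.2.1, hp.2.2⟩
  have h4 : 0 ≤ Real.log M := Real.log_natCast_nonneg M
  unfold dv
  gcongr

theorem sum_La_mul (d N : ℕ) (hd : 2 ≤ d) (hN : 1 ≤ N) :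
    ∑ r ∈ Finset.Icc 1 N, La (d * r) ≤ Real.log d + Real.log N := by
  set p := d.minFac with hp
  have hpp : p.Prime := Nat.minFac_prime (by omega)
  have h1 : ∑ r ∈ Finset.Icc 1 N, La (d * r) ≤
      ∑ s ∈ (Finset.Icc 1 (d * N)).filter (fun s => p ∣ s), La s := by
    have h2 : ∑ r ∈ Finset.Icc 1 N, La (d * r) =
        ∑ s ∈ (Finset.Icc 1 N).image (fun r => d * r), La s := by
      rw [Finset.sum_image]
      intro a _ b _ hab
      exact Nat.eq_of_mul_eq_mul_left (by omega) hab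
    rw [h2]
    refine Finset.sum_le_sum_of_subset_of_nonneg ?_ fun i _ _ =>
      ArithmeticFunction.vonMangoldt_nonneg
    intro s hs
    simp only [Finset.mem_image, Finset.mem_filter, Finset.mem_Icc] at hs ⊢
    obtain ⟨r, ⟨hr1, hr2⟩, rfl⟩ := hs
    refine ⟨⟨Nat.mul_pos (by omega) hr1, Nat.mul_le_mul_left _ hr2⟩, ?_⟩
    exact (Nat.minFac_dvd d).mul_right r
  refine h1.trans ((sum_La_dvd p hpp (d * N) (Nat.mul_pos (by omega) hN)).trans ?_)
  push_cast
  rw [Real.log_mul (by positivity) (by positivity)]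

theorem reg_La (hsw : SW.SwStatement) : Reg La := by
  refine ⟨1, fun A B H => ?_⟩
  obtain ⟨C, hC, hsw'⟩ := hsw (A + 1) (B + 1) (by positivity) (by positivity)
  have hlogC : ∀ᶠ x : ℝ in atTop, 2 * C ≤ Real.log x :=
    Real.tendsto_log_atTop.eventually_ge_atTop (2 * C)
  filter_upwards [ev_log (2 * (H + 1)) (B + 1), hlogC, eventually_ge_atTop (Real.exp 1),
    eventually_ge_atTop (3 : ℝ)] with x hx hxC hx1 hx3
  intro q hq hqA ψ hψ d e hd he hdx hex
  have hxpos : 0 < x := lt_of_lt_of_le (Real.exp_pos 1) hx1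
  have hl : 1 ≤ Real.log x := by
    rw [Real.le_log_iff_exp_le hxpos]
    exact hx1
  have hd0 : d ≠ 0 := hd.ne_zero
  have hN : 1 ≤ ⌊x⌋₊ := by
    rw [Nat.one_le_floor_iff]; linarith
  have h2 := dv_pos hd0
  have h3 : 1 ≤ dv e := dv_pos (by omega)
  have hNl : Real.log ⌊x⌋₊ ≤ Real.log x :=
    Real.log_le_log (by exact_mod_cast hN) (Nat.floor_le hxpos.le)
  have hlpos : 0 < Real.log x := by linarith
  rw [pow_one, pow_one, le_div_iff₀ (by positivity)]
  have hψ1 : ∀ r : ℕ, ‖ψ (r : ZMod q)‖ ≤ 1 := fun r => ψ.norm_le_one _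
  rcases Nat.lt_or_ge d 2 with hd2 | hd2
  · have hd1 : d = 1 := by omega
    subst hd1
    have hsplit : ∑ r ∈ (Finset.Icc 1 ⌊x⌋₊).filter (fun r => Nat.Coprime r e),
        ((La (1 * r) : ℝ) : ℂ) * ψ (r : ZMod q) =
        ∑ r ∈ Finset.Icc 1 ⌊x⌋₊, ψ (r : ZMod q) * (ArithmeticFunction.vonMangoldt r : ℂ) -
        ∑ r ∈ (Finset.Icc 1 ⌊x⌋₊).filter (fun r => ¬ Nat.Coprime r e),
          ((La r : ℝ) : ℂ) * ψ (r : ZMod q) := by
      have h5 := Finset.sum_filter_add_sum_filter_not (Finset.Icc 1 ⌊x⌋₊)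
        (fun r => Nat.Coprime r e) (fun r => ((La r : ℝ) : ℂ) * ψ (r : ZMod q))
      have h6 : ∑ r ∈ Finset.Icc 1 ⌊x⌋₊, ψ (r : ZMod q) *
          (ArithmeticFunction.vonMangoldt r : ℂ) =
          ∑ r ∈ Finset.Icc 1 ⌊x⌋₊, ((La r : ℝ) : ℂ) * ψ (r : ZMod q) :=
        Finset.sum_congr rfl fun r _ => by rw [mul_comm]; rfl
      rw [h6, ← h5, add_sub_cancel_right]
      simp only [one_mul]
    rw [hsplit]
    have hq' : (q : ℝ) ≤ Real.log x ^ ((A : ℝ) + 1) := by
      refine hqA.trans ?_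
      rw [← Real.rpow_natCast]
      exact Real.rpow_le_rpow_of_exponent_le hl (by linarith)
    have h7 := hsw' x hx3 q (by omega) hq' ψ hψ
    have h8 : ‖∑ r ∈ (Finset.Icc 1 ⌊x⌋₊).filter (fun r => ¬ Nat.Coprime r e),
          ((La r : ℝ) : ℂ) * ψ (r : ZMod q)‖ ≤ dv e * Real.log x := by
      refine (norm_sum_le _ _).trans ?_
      refine le_trans (Finset.sum_le_sum (g := fun r => La r) fun r _ => ?_) ?_
      · have h9 : 0 ≤ La r := ArithmeticFunction.vonMangoldt_nonneg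
        rw [norm_mul, Complex.norm_real, Real.norm_of_nonneg h9]
        exact mul_le_of_le_one_right h9 (hψ1 r)
      · refine (sum_La_not_coprime e ⌊x⌋₊ he hN).trans ?_
        gcongr
    have h10 : C * x * Real.log x ^ (-((B : ℝ) + 1)) * Real.log x ^ B ≤ x / 2 := by
      have h11 : Real.log x ^ (-((B : ℝ) + 1)) * Real.log x ^ B = (Real.log x)⁻¹ := by
        rw [← Real.rpow_natCast, ← Real.rpow_add hlpos, ← Real.rpow_neg_one]
        congr 1
        ring
      rw [mul_assoc, h11, mul_comm C x, mul_assoc]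
      have h12 : C * (Real.log x)⁻¹ ≤ 1 / 2 := by
        rw [← div_eq_mul_inv, div_le_iff₀ hlpos]
        linarith
      nlinarith
    have h13 : dv e * Real.log x * Real.log x ^ B ≤ dv e * (x / 2) := by
      rw [mul_assoc]
      have h14 : Real.log x * Real.log x ^ B ≤ x / 2 := by
        have h15 : 2 * (Real.log x ^ (B + 1)) ≤ 2 * ((H : ℝ) + 1) * Real.log x ^ (B + 1) := by
          have : (0 : ℝ) ≤ H := Nat.cast_nonneg H
          have h16 : 0 ≤ Real.log x ^ (B + 1) := by positivity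
          nlinarith
        rw [pow_succ] at h15 hx
        nlinarith
      gcongr
    calc _ ≤ (C * x * Real.log x ^ (-((B : ℝ) + 1)) + dv e * Real.log x) * Real.log x ^ B := by
          gcongr
          exact (norm_sub_le _ _).trans (add_le_add h7 h8)
      _ ≤ x / 2 + dv e * (x / 2) := by rw [add_mul]; linarith
      _ ≤ dv e * x := by nlinarith
      _ = x * 1 * dv e := by ring
      _ ≤ x * dv 1 * dv e := by gcongr
  · have hdl : Real.log d ≤ H * Real.log x := by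
      rw [← Real.log_pow]
      exact Real.log_le_log (by exact_mod_cast Nat.pos_of_ne_zero hd0) hdx
    have h5 : ‖∑ r ∈ (Finset.Icc 1 ⌊x⌋₊).filter (fun r => Nat.Coprime r e),
        ((La (d * r) : ℝ) : ℂ) * ψ (r : ZMod q)‖ ≤ (H + 1) * Real.log x := by
      refine (norm_sum_le _ _).trans ?_
      refine le_trans (Finset.sum_le_sum (g := fun r => La (d * r)) fun r _ => ?_) ?_
      · have h9 : 0 ≤ La (d * r) := ArithmeticFunction.vonMangoldt_nonneg
        rw [norm_mul, Complex.norm_real, Real.norm_of_nonneg h9]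
        exact mul_le_of_le_one_right h9 (hψ1 r)
      · refine (Finset.sum_le_sum_of_subset_of_nonneg (Finset.filter_subset _ _) fun i _ _ =>
          ArithmeticFunction.vonMangoldt_nonneg).trans ?_
        refine (sum_La_mul d ⌊x⌋₊ hd2 hN).trans ?_
        linarith
    calc _ ≤ (H + 1) * Real.log x * Real.log x ^ B := by gcongr
      _ ≤ x := by
        have h16 : 0 ≤ (H + 1) * Real.log x ^ (B + 1) := by positivity
        rw [pow_succ] at h16 hx
        nlinarith
      _ = x * 1 * 1 := by ring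
      _ ≤ x * dv d * dv e := by gcongr

end RGB

theorem rgb (h1 : SW.ChbStatement) (h2 : SW.SwStatement) : RgbStatement :=
  ⟨⟨RGB.reg_one h1, RGB.tb_one⟩, ⟨RGB.reg_lg h1, RGB.tb_lg⟩, ⟨RGB.reg_La h2, RGB.tb_La⟩⟩

end Pool.Agent.Lib.MP_6bc78b_nt.MS.P2
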