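import Pool.Agent.Lib.MP_6bc78b_nt.MS.P2.Iface

/-! Module SPL of ms2_modules: splitting the condition `d ∣ n` over a convolution. -/

set_option autoImplicit false

open Filter Topology ArithmeticFunction

namespace Pool.Agent.Lib.MP_6bc78b_nt.MS.P2



theorem spl : SplStatement := by
  intro d N hd u v F
  have hL : ∑ n ∈ (Finset.Icc 1 N).filter (fun n => d ∣ n), (((u * v) n : ℝ) : ℂ) * F n =
      ∑ t ∈ ((Finset.Icc 1 N).filter (fun n => d ∣ n)).sigma
        (fun n => n.divisorsAntidiagonal),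
        ((u t.2.1 : ℝ) : ℂ) * ((v t.2.2 : ℝ) : ℂ) * F t.1 := by
    rw [Finset.sum_sigma]
    refine Finset.sum_congr rfl fun n _ => ?_
    rw [ArithmeticFunction.mul_apply]
    push_cast
    rw [Finset.sum_mul]
  have hR : ∑ d1 ∈ d.divisors, ∑ x ∈ (Finset.Icc 1 N).filter (fun x => Nat.Coprime x (d / d1)),
      ∑ z ∈ (Finset.Icc 1 N).filter (fun z => d * x * z ≤ N),
        ((u (d1 * x) : ℝ) : ℂ) * ((v (d / d1 * z) : ℝ) : ℂ) * F (d * x * z) =
      ∑ t ∈ d.divisors.sigma (fun d1 =>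
        ((Finset.Icc 1 N).filter (fun x => Nat.Coprime x (d / d1))).sigma
          (fun x => (Finset.Icc 1 N).filter (fun z => d * x * z ≤ N))),
        ((u (t.1 * t.2.1) : ℝ) : ℂ) * ((v (d / t.1 * t.2.2) : ℝ) : ℂ) *
          F (d * t.2.1 * t.2.2) := by
    rw [Finset.sum_sigma]
    refine Finset.sum_congr rfl fun d1 _ => ?_
    rw [Finset.sum_sigma]
  rw [hL, hR]
  refine Finset.sum_nbij'
    (fun t => ⟨Nat.gcd t.2.1 d, ⟨t.2.1 / Nat.gcd t.2.1 d, t.2.2 / (d / Nat.gcd t.2.1 d)⟩⟩)
    (fun t => ⟨d * t.2.1 * t.2.2, (t.1 * t.2.1, d / t.1 * t.2.2)⟩) ?_ ?_ ?_ ?_ ?_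
  · rintro ⟨n, a, b⟩ h
    simp only [Finset.mem_sigma, Finset.mem_filter, Finset.mem_Icc,
      Nat.mem_divisorsAntidiagonal, Nat.mem_divisors] at h ⊢
    obtain ⟨⟨⟨hn1, hnN⟩, hdn⟩, hab, hn0⟩ := h
    obtain ⟨ha0, hb0⟩ : a ≠ 0 ∧ b ≠ 0 := by
      constructor
      · rintro rfl; simp at hab; omega
      · rintro rfl; simp at hab; omega
    set g := Nat.gcd a d with hg
    have hgpos : 0 < g := Nat.gcd_pos_of_pos_right _ hd
    have hga : g ∣ a := Nat.gcd_dvd_left a d
    have hgd : g ∣ d := Nat.gcd_dvd_right a d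
    obtain ⟨x, hx⟩ := hga
    obtain ⟨e, he⟩ := hgd
    have hax : a / g = x := by rw [hx]; exact Nat.mul_div_cancel_left _ hgpos
    have hde : d / g = e := by rw [he]; exact Nat.mul_div_cancel_left _ hgpos
    have hcop : Nat.Coprime x e := by
      have := Nat.coprime_div_gcd_div_gcd (m := a) (n := d) hgpos
      rwa [← hg, hax, hde] at this
    have hepos : 0 < e := by
      rcases Nat.eq_zero_or_pos e with h0 | h0
      · rw [h0, mul_zero] at he; omega
      · exact h0
    have heb : e ∣ b := by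
      have h1 : g * e ∣ g * (x * b) := by
        rw [← he, ← mul_assoc, ← hx, hab]; exact hdn
      have h2 : e ∣ x * b := Nat.dvd_of_mul_dvd_mul_left hgpos h1
      exact hcop.symm.dvd_of_dvd_mul_left h2
    obtain ⟨z, hz⟩ := heb
    have hbz : b / e = z := by rw [hz]; exact Nat.mul_div_cancel_left _ hepos
    have hxpos : 0 < x := by
      rcases Nat.eq_zero_or_pos x with h0 | h0
      · rw [h0, mul_zero] at hx; exact absurd hx ha0
      · exact h0
    have hzpos : 0 < z := by
      rcases Nat.eq_zero_or_pos z with h0 | h0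
      · rw [h0, mul_zero] at hz; exact absurd hz hb0
      · exact h0
    have hprod : d * x * z = n := by
      rw [← hab, hx, hz, he]; ring
    rw [hax, hde, hbz]
    refine ⟨⟨⟨e, he⟩, by omega⟩, ⟨⟨hxpos, ?_⟩, hcop⟩, ⟨hzpos, ?_⟩, ?_⟩
    · calc x ≤ d * x * z := by
            calc x = 1 * x * 1 := by ring
              _ ≤ d * x * z := by gcongr <;> omega
        _ ≤ N := by rw [hprod]; exact hnN
    · calc z ≤ d * x * z := by
            calc z = 1 * 1 * z := by ring
              _ ≤ d * x * z := by gcongr <;> omega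
        _ ≤ N := by rw [hprod]; exact hnN
    · rw [hprod]; exact hnN
  · rintro ⟨d1, x, z⟩ h
    simp only [Finset.mem_sigma, Finset.mem_filter, Finset.mem_Icc,
      Nat.mem_divisorsAntidiagonal, Nat.mem_divisors] at h ⊢
    obtain ⟨⟨⟨e, he⟩, hd0⟩, ⟨⟨hx1, hxN⟩, hcop⟩, ⟨hz1, hzN⟩, hle⟩ := h
    have hd1 : 0 < d1 := by
      rcases Nat.eq_zero_or_pos d1 with h0 | h0
      · rw [h0, zero_mul] at he; omega
      · exact h0
    have hde : d / d1 = e := by rw [he]; exact Nat.mul_div_cancel_left _ hd1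
    have hpos : 0 < d * x * z := by positivity
    refine ⟨⟨⟨hpos, hle⟩, ⟨x * z, by ring⟩⟩, ?_, by omega⟩
    rw [hde, he]; ring
  · rintro ⟨n, a, b⟩ h
    simp only [Finset.mem_sigma, Finset.mem_filter, Finset.mem_Icc,
      Nat.mem_divisorsAntidiagonal, Nat.mem_divisors] at h ⊢
    obtain ⟨⟨⟨hn1, hnN⟩, hdn⟩, hab, hn0⟩ := h
    obtain ⟨ha0, hb0⟩ : a ≠ 0 ∧ b ≠ 0 := by
      constructor
      · rintro rfl; simp at hab; omega
      · rintro rfl; simp at hab; omega
    set g := Nat.gcd a d with hg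
    have hgpos : 0 < g := Nat.gcd_pos_of_pos_right _ hd
    have hga : g ∣ a := Nat.gcd_dvd_left a d
    have hgd : g ∣ d := Nat.gcd_dvd_right a d
    obtain ⟨x, hx⟩ := hga
    obtain ⟨e, he⟩ := hgd
    have hax : a / g = x := by rw [hx]; exact Nat.mul_div_cancel_left _ hgpos
    have hde : d / g = e := by rw [he]; exact Nat.mul_div_cancel_left _ hgpos
    have hcop : Nat.Coprime x e := by
      have := Nat.coprime_div_gcd_div_gcd (m := a) (n := d) hgpos
      rwa [← hg, hax, hde] at this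
    have hepos : 0 < e := by
      rcases Nat.eq_zero_or_pos e with h0 | h0
      · rw [h0, mul_zero] at he; omega
      · exact h0
    have heb : e ∣ b := by
      have h1 : g * e ∣ g * (x * b) := by
        rw [← he, ← mul_assoc, ← hx, hab]; exact hdn
      have h2 : e ∣ x * b := Nat.dvd_of_mul_dvd_mul_left hgpos h1
      exact hcop.symm.dvd_of_dvd_mul_left h2
    obtain ⟨z, hz⟩ := heb
    have hbz : b / e = z := by rw [hz]; exact Nat.mul_div_cancel_left _ hepos
    have hprod : d * x * z = n := by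
      rw [← hab, hx, hz, he]; ring
    rw [hax, hde, hbz, hprod, ← hx, ← hz]
  · rintro ⟨d1, x, z⟩ h
    simp only [Finset.mem_sigma, Finset.mem_filter, Finset.mem_Icc,
      Nat.mem_divisorsAntidiagonal, Nat.mem_divisors] at h ⊢
    obtain ⟨⟨⟨e, he⟩, hd0⟩, ⟨⟨hx1, hxN⟩, hcop⟩, ⟨hz1, hzN⟩, hle⟩ := h
    have hd1 : 0 < d1 := by
      rcases Nat.eq_zero_or_pos d1 with h0 | h0
      · rw [h0, zero_mul] at he; omega
      · exact h0
    have hde : d / d1 = e := by rw [he]; exact Nat.mul_div_cancel_left _ hd1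
    have hepos : 0 < e := by
      rcases Nat.eq_zero_or_pos e with h0 | h0
      · rw [h0, mul_zero] at he; omega
      · exact h0
    rw [hde] at hcop
    have hg : Nat.gcd (d1 * x) d = d1 := by
      rw [he, Nat.gcd_mul_left, hcop, mul_one]
    rw [hg, hde, Nat.mul_div_cancel_left _ hd1, Nat.mul_div_cancel_left _ hepos]
  · rintro ⟨n, a, b⟩ h
    simp only [Finset.mem_sigma, Finset.mem_filter, Finset.mem_Icc,
      Nat.mem_divisorsAntidiagonal, Nat.mem_divisors] at h ⊢
    obtain ⟨⟨⟨hn1, hnN⟩, hdn⟩, hab, hn0⟩ := h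
    obtain ⟨ha0, hb0⟩ : a ≠ 0 ∧ b ≠ 0 := by
      constructor
      · rintro rfl; simp at hab; omega
      · rintro rfl; simp at hab; omega
    set g := Nat.gcd a d with hg
    have hgpos : 0 < g := Nat.gcd_pos_of_pos_right _ hd
    have hga : g ∣ a := Nat.gcd_dvd_left a d
    have hgd : g ∣ d := Nat.gcd_dvd_right a d
    obtain ⟨x, hx⟩ := hga
    obtain ⟨e, he⟩ := hgd
    have hax : a / g = x := by rw [hx]; exact Nat.mul_div_cancel_left _ hgpos
    have hde : d / g = e := by rw [he]; exact Nat.mul_div_cancel_left _ hgpos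
    have hcop : Nat.Coprime x e := by
      have := Nat.coprime_div_gcd_div_gcd (m := a) (n := d) hgpos
      rwa [← hg, hax, hde] at this
    have hepos : 0 < e := by
      rcases Nat.eq_zero_or_pos e with h0 | h0
      · rw [h0, mul_zero] at he; omega
      · exact h0
    have heb : e ∣ b := by
      have h1 : g * e ∣ g * (x * b) := by
        rw [← he, ← mul_assoc, ← hx, hab]; exact hdn
      have h2 : e ∣ x * b := Nat.dvd_of_mul_dvd_mul_left hgpos h1
      exact hcop.symm.dvd_of_dvd_mul_left h2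
    obtain ⟨z, hz⟩ := heb
    have hbz : b / e = z := by rw [hz]; exact Nat.mul_div_cancel_left _ hepos
    have hprod : d * x * z = n := by
      rw [← hab, hx, hz, he]; ring
    rw [hax, hde, hbz, hprod, ← hx, ← hz]

end Pool.Agent.Lib.MP_6bc78b_nt.MS.P2
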